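import Pool.Agent.P.MP_424b19_co.ExMirror

namespace Pool.Agent.Results.MP_424b19_co.Extremal

open Pool.Agent.P.MP_424b19_co

/-- The graphs on which the toppling game lasts as long as possible.  For a 2-edge-connected
graph that is not a cycle, the value equals the general upper bound `2 |E| - |V| + 1` exactly when
the graph has a mirror with no fixed vertex (Min starts) or exactly one fixed vertex (Max
starts). -/
theorem result (V : Type) [Fintype V] [DecidableEq V] (G : SimpleGraph V) [DecidableRel G.Adj]
    (hG : G.IsEdgeConnected 2) (hd : ∃ v, 3 ≤ G.degree v) (b : Bool) :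
    value G b = ((2 * G.edgeFinset.card + 1 - Fintype.card V : ℕ) : ℕ∞) ↔
      ∃ ι : V → V, Mirror G ι ∧
        (Finset.univ.filter fun v => ι v = v).card = if b then 1 else 0 :=
  extremal hG hd b

end Pool.Agent.Results.MP_424b19_co.Extremal
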