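import Pool.Agent.P.MP_424b19_co.Proof

namespace Pool.Agent.Results.MP_424b19_co.Toppling

open Pool.Agent.P.MP_424b19_co

/-- Cranston's conjecture on the toppling game: for every finite connected simple graph that is
not a tree, the Max-start value and the Min-start value are different. -/
theorem result (V : Type) [Fintype V] [DecidableEq V] (G : SimpleGraph V) [DecidableRel G.Adj]
    (hconn : G.Connected) (hnt : ¬ G.IsTree) :
    value G true ≠ value G false :=
  value_ne G hconn hnt

end Pool.Agent.Results.MP_424b19_co.Toppling
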